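import Mathlib
import Pool.Agent.MP_9f28a9_al.Main

set_option autoImplicit false

namespace Pool.Agent.Results.MP_9f28a9_al.NotSober

open Pool.Agent.MP_9f28a9_al

/-- There is a (commutative) ring `R` and a subset `C` of the rep-Zariski spectrum of right
`R`-modules which is an intersection of basic sets `(φ/ψ)`, closed and irreducible, and has no
generic point. -/
theorem result : ∃ (R : Type) (_ : CommRing R) (C : Set (Zar Rᵐᵒᵖ)),
    (∃ F : Set (PPPair Rᵐᵒᵖ), C = ⋂ p ∈ F, p.supp) ∧ IsClosed C ∧ IsIrreducible C ∧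
      ∀ x : Zar Rᵐᵒᵖ, ¬ IsGenericPoint x C :=
  exists_counterexample

end Pool.Agent.Results.MP_9f28a9_al.NotSober
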